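import Pool.Agent.FHQ.StmtsP

/-!
# Squad FHQ, row EXQ: elimination of a quantifier over the field
-/

open scoped BigOperators

noncomputable section

namespace Pool.Agent.FHQ.H15

open Polynomial

/-- change of the family for large `p` -/
theorem pasD_congr {n : ℕ} {S T : Fam n} (p1 : ℕ)
    (h : ∀ (p : ℕ) [Fact p.Prime] (K : Type) [Field K] (A : AcF p K), p1 ≤ p →
      ∀ x : Fin n → K, S p K A x ↔ T p K A x) (hT : PasD n T) : PasD n S := by
  obtain ⟨p0, r, f, C, hC, hf⟩ := hT
  refine ⟨max p0 p1, r, f, C, hC, ?_⟩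
  intro p _ K _ A hp x
  rw [h p K A ((le_max_right _ _).trans hp) x]
  exact hf p K A ((le_max_left _ _).trans hp) x

theorem pasD_false (n : ℕ) : PasD n (fun _ _ _ _ _ => False) := by
  refine ⟨0, 0, Fin.elim0, fun _ _ _ => False, ⟨[], fun p a g => ?_⟩, fun p _ K _ A _ x => Iff.rfl⟩
  constructor
  · exact False.elim
  · rintro ⟨b, hb, -⟩
    exact absurd hb List.not_mem_nil

/-- finite disjunctions -/
theorem pasD_exists (hpdc : PdcStmt) {n : ℕ} {ι : Type} [DecidableEq ι] (s : Finset ι)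
    (S : ι → Fam n) (h : ∀ i ∈ s, PasD n (S i)) :
    PasD n (fun p K _ A x => ∃ i ∈ s, S i p K A x) := by
  induction s using Finset.induction_on with
  | empty =>
    refine pasD_congr 0 (fun p _ K _ A _ x => ?_) (pasD_false n)
    constructor
    · rintro ⟨i, hi, -⟩
      exact absurd hi (Finset.notMem_empty i)
    · exact False.elim
  | insert i s hi ih =>
    have h1 := h i (Finset.mem_insert_self i s)
    have h2 := ih fun j hj => h j (Finset.mem_insert_of_mem hj)
    refine pasD_congr 0 (fun p _ K _ A _ x => ?_) (hpdc n _ _ h1 h2).1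
    constructor
    · rintro ⟨j, hj, hS⟩
      rcases Finset.mem_insert.1 hj with rfl | hj
      · exact Or.inl hS
      · exact Or.inr ⟨j, hj, hS⟩
    · rintro (hS | ⟨j, hj, hS⟩)
      · exact ⟨i, Finset.mem_insert_self i s, hS⟩
      · exact ⟨j, Finset.mem_insert_of_mem hj, hS⟩

theorem rootD_all (hrtz : RtzStmt) (hrts : RtsStmt) (n D : ℕ) : RootD n D := by
  induction D with
  | zero => exact (hrtz n).1
  | succ D ih =>
    rcases Nat.eq_zero_or_pos D with rfl | hD
    · exact (hrtz n).2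
    · exact hrts n D hD ih

/-- `hasseDeriv` commutes with base change -/
theorem hasse_map {R S : Type} [CommRing R] [CommRing S] (φ : R →+* S) (k : ℕ) (f : R[X]) :
    hasseDeriv k (f.map φ) = (hasseDeriv k f).map φ := by
  ext m
  rw [hasseDeriv_coeff, coeff_map, coeff_map, hasseDeriv_coeff, map_mul, map_natCast]

/-- evaluation in the first variable -/
theorem aeval_cons {n : ℕ} {K : Type} [Field K] (a : K) (x : Fin n → K)
    (f : MvPolynomial (Fin (n + 1)) ℤ) :
    MvPolynomial.aeval (Fin.cons a x : Fin (n + 1) → K) f =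
      ((MvPolynomial.finSuccEquiv ℤ n f).map (spz x)).eval a := by
  have h : (MvPolynomial.aeval (Fin.cons a x : Fin (n + 1) → K) :
      MvPolynomial (Fin (n + 1)) ℤ →ₐ[ℤ] K).toRingHom =
      ((Polynomial.evalRingHom a).comp (Polynomial.mapRingHom (spz x))).comp
        (MvPolynomial.finSuccEquiv ℤ n).toRingEquiv.toRingHom := by
    refine MvPolynomial.ringHom_ext (fun z => ?_) (fun i => ?_)
    · rw [eq_intCast MvPolynomial.C z, map_intCast, map_intCast]
    · refine Fin.cases ?_ (fun j => ?_) i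
      · show MvPolynomial.aeval (Fin.cons a x : Fin (n + 1) → K) (MvPolynomial.X 0) =
          ((MvPolynomial.finSuccEquiv ℤ n (MvPolynomial.X 0)).map (spz x)).eval a
        rw [MvPolynomial.aeval_X, MvPolynomial.finSuccEquiv_X_zero, Polynomial.map_X,
          Polynomial.eval_X, Fin.cons_zero]
      · show MvPolynomial.aeval (Fin.cons a x : Fin (n + 1) → K) (MvPolynomial.X j.succ) =
          ((MvPolynomial.finSuccEquiv ℤ n (MvPolynomial.X j.succ)).map (spz x)).eval a
        rw [MvPolynomial.aeval_X, MvPolynomial.finSuccEquiv_X_succ, Polynomial.map_C,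
          Polynomial.eval_C, Fin.cons_succ]
        show x j = MvPolynomial.aeval x (MvPolynomial.X j)
        rw [MvPolynomial.aeval_X]
  exact congrArg (fun g => g f) h

/-- the polynomials `X` and `h l` -/
def W {n r : ℕ} (h : Fin r → Polynomial (MvPolynomial (Fin n) ℤ)) :
    Option (Fin r) → Polynomial (MvPolynomial (Fin n) ℤ)
  | none => X
  | some l => h l

/-- one alternative -/
def Tf {n r : ℕ} (D : ℕ) (h : Fin r → Polynomial (MvPolynomial (Fin n) ℤ)) (C : Cond r)
    (o : Option (Fin r) × Fin D) : Fam n := fun p K _ A x =>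
  ∃ c : K, ((derivative^[(o.2 : ℕ)] (W h o.1)).map (spz x)) ≠ 0 ∧
    ((derivative^[(o.2 : ℕ)] (W h o.1)).map (spz x)).eval c = 0 ∧
    (C p (fun l => A.ac (((h l).map (spz x)).eval c))
        (fun l => A.v (((h l).map (spz x)).eval c)) ∨
      Theta r D ∅ C p (fun i => A.ac ((taylor c ((h i.1).map (spz x))).coeff i.2))
        (fun i => A.v ((taylor c ((h i.1).map (spz x))).coeff i.2)))

/-- Row EXQ. -/
theorem exq (hqe : Qe1Stmt) (hrtz : RtzStmt) (hrts : RtsStmt) (hubx : UbxStmt)
    (hpdc : PdcStmt) : ExqStmt := by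
  classical
  intro n S hS
  obtain ⟨p0, r, f, C, hC, hf⟩ := hS
  obtain ⟨h, hh⟩ : ∃ h : Fin r → Polynomial (MvPolynomial (Fin n) ℤ),
      h = fun i => MvPolynomial.finSuccEquiv ℤ n (f i) := ⟨_, rfl⟩
  obtain ⟨D, hD⟩ : ∃ D : ℕ, D = (Finset.univ.sup fun l => (h l).natDegree) + 2 := ⟨_, rfl⟩
  have hD2 : 2 ≤ D := by omega
  have hdeg : ∀ l, (h l).natDegree < D := by
    intro l
    have : (h l).natDegree ≤ Finset.univ.sup fun l => (h l).natDegree :=
      Finset.le_sup (f := fun l => (h l).natDegree) (Finset.mem_univ l)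
    omega
  -- one alternative
  obtain ⟨T, hT⟩ : ∃ T : Option (Fin r) × Fin D → Fam n, T = Tf D h C := ⟨_, rfl⟩
  have key : ∀ o, PasD n (T o) := by
    intro o
    have h1 := rootD_all hrtz hrts n (derivative^[(o.2 : ℕ)] (W h o.1)).natDegree r
      (derivative^[(o.2 : ℕ)] (W h o.1)) h C hC le_rfl
    obtain ⟨e⟩ : Nonempty (Fin r × Fin D ≃ Fin (Fintype.card (Fin r × Fin D))) :=
      ⟨Fintype.equivFin _⟩
    have h2 := rootD_all hrtz hrts n (derivative^[(o.2 : ℕ)] (W h o.1)).natDegree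
      (Fintype.card (Fin r × Fin D)) (derivative^[(o.2 : ℕ)] (W h o.1))
      (fun j => hasseDeriv ((e.symm j).2 : ℕ) (h (e.symm j).1))
      (fun p a g => Theta r D ∅ C p (fun i => a (e i)) (fun i => g (e i)))
      (hubx r D ∅ C hC _ e) le_rfl
    refine pasD_congr 0 (fun p _ K _ A _ x => ?_) (hpdc n _ _ h1 h2).1
    rw [hT]
    unfold Tf
    have ht : ∀ (c : K) (i : Fin r × Fin D),
        (taylor c ((h i.1).map (spz x))).coeff i.2 =
          ((hasseDeriv (i.2 : ℕ) (h i.1)).map (spz x)).eval c := by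
      intro c i
      rw [taylor_coeff, hasse_map]
    simp only [ht, Equiv.symm_apply_apply]
    constructor
    · rintro ⟨c, c1, c2, c3 | c3⟩
      · exact Or.inl ⟨c, c1, c2, c3⟩
      · exact Or.inr ⟨c, c1, c2, c3⟩
    · rintro (⟨c, c1, c2, c3⟩ | ⟨c, c1, c2, c3⟩)
      · exact ⟨c, c1, c2, Or.inl c3⟩
      · exact ⟨c, c1, c2, Or.inr c3⟩
  refine pasD_congr (max p0 D) ?_ (pasD_exists hpdc Finset.univ T fun o _ => key o)
  intro p _ K _ A hp x
  have hp0 : p0 ≤ p := (le_max_left _ _).trans hp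
  have hpD : D ≤ p := (le_max_right _ _).trans hp
  have e1 : (∃ a : K, S p K A (Fin.cons a x)) ↔
      ∃ a : K, C p (fun l => A.ac (((h l).map (spz x)).eval a))
        (fun l => A.v (((h l).map (spz x)).eval a)) := by
    refine exists_congr fun a => ?_
    rw [hf p K A hp0 (Fin.cons a x)]
    have e2 : ∀ l, MvPolynomial.aeval (Fin.cons a x : Fin (n + 1) → K) (f l) =
        ((h l).map (spz x)).eval a := fun l => by rw [hh]; exact aeval_cons a x (f l)
    simp only [e2]
  rw [e1, hqe p K A r D (fun l => (h l).map (spz x)) hD2 hpD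
    (fun l => lt_of_le_of_lt natDegree_map_le (hdeg l)) C]
  have e3 : ∀ (o : Option (Fin r)) (s : ℕ), (derivative^[s] (W h o)).map (spz x) =
      derivative^[s] ((W h o).map (spz x)) := fun o s =>
    (iterate_derivative_map (W h o) (spz x) s).symm
  constructor
  · rintro ⟨w, hw, s, hs, hw0, c, hc, hcc⟩
    obtain ⟨o, ho⟩ : ∃ o, (W h o).map (spz x) = w := by
      rcases hw with rfl | ⟨l, rfl⟩
      · exact ⟨none, Polynomial.map_X _⟩
      · exact ⟨some l, rfl⟩
    refine ⟨(o, ⟨s, hs⟩), Finset.mem_univ _, ?_⟩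
    rw [hT]
    refine ⟨c, ?_, ?_, hcc⟩
    · rw [e3, ho]; exact hw0
    · rw [e3, ho]; exact hc
  · rintro ⟨⟨o, s⟩, -, ho⟩
    rw [hT] at ho
    obtain ⟨c, c1, c2, c3⟩ := ho
    rw [e3] at c1 c2
    refine ⟨(W h o).map (spz x), ?_, s, s.2, c1, c, c2, c3⟩
    cases o with
    | none => exact Or.inl (Polynomial.map_X _)
    | some l => exact Or.inr ⟨l, rfl⟩

end Pool.Agent.FHQ.H15
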